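import Mathlib

/-!
An injective ring homomorphism from the p-adic integers to the complex numbers
(abstract isomorphism of the algebraic closure of ℚ_p with ℂ).
-/

namespace W0649d4h85

open Cardinal

theorem mk_padic_le (p : ℕ) [Fact p.Prime] : #ℚ_[p] ≤ 𝔠 := by
  have h1 : #(CauSeq.Completion.Cauchy (padicNorm p)) ≤ #(CauSeq ℚ (padicNorm p)) :=
    Cardinal.mk_quotient_le
  have h2 : #(CauSeq ℚ (padicNorm p)) ≤ #(ℕ → ℚ) :=
    Cardinal.mk_subtype_le _
  have h3 : #(ℕ → ℚ) = 𝔠 := by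
    simp
  exact (h1.trans h2).trans h3.le

theorem mk_algCl (p : ℕ) [Fact p.Prime] : #(AlgebraicClosure ℚ_[p]) = 𝔠 := by
  apply le_antisymm
  · have h := Algebra.IsAlgebraic.cardinalMk_le_max ℚ_[p] (AlgebraicClosure ℚ_[p])
    refine h.trans (max_le (mk_padic_le p) aleph0_le_continuum)
  · have h1 : 𝔠 ≤ #ℚ_[p] := continuum_le_cardinal_of_nontriviallyNormedField ℚ_[p]
    refine h1.trans ?_
    exact Cardinal.mk_le_of_injective (algebraMap ℚ_[p] (AlgebraicClosure ℚ_[p])).injective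

/-- There is an injective ring homomorphism `ℤ_p → ℂ`. -/
theorem exists_hom (p : ℕ) [Fact p.Prime] :
    ∃ σ : ℤ_[p] →+* ℂ, Function.Injective σ := by
  have hK : ℵ₀ < #(AlgebraicClosure ℚ_[p]) := by
    rw [mk_algCl]; exact aleph0_lt_continuum
  have hC : #ℂ = 𝔠 := Cardinal.mk_complex
  obtain ⟨e⟩ := Cardinal.eq.1 ((mk_algCl p).trans hC.symm)
  haveI : CharZero (AlgebraicClosure ℚ_[p]) :=
    charZero_of_injective_algebraMap
      (algebraMap ℚ_[p] (AlgebraicClosure ℚ_[p])).injective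
  obtain ⟨f⟩ := IsAlgClosed.ringEquiv_of_equiv_of_charZero hK ⟨e⟩
  refine ⟨(f.toRingHom.comp (algebraMap ℚ_[p] (AlgebraicClosure ℚ_[p]))).comp
    PadicInt.Coe.ringHom, ?_⟩
  intro x y h
  have h1 := (f.toRingHom.comp (algebraMap ℚ_[p] (AlgebraicClosure ℚ_[p]))).injective h
  exact PadicInt.ext h1

end W0649d4h85
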